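import Pool.Agent.Duplex38.Main

/-!
# Iterated good extensions of abelian groups have duplexes
-/

namespace Pool.Agent.Results.MP_043404_co.DuplexTowers

open Pool.Agent.Duplex38

/-- Every latin square obtained from an isotope of an abelian group of order at least `2` by finitely many good
extensions has a duplex. -/
theorem result {R C S : Type} (L : R → C → S) (h : Tower L) : ∃ D : Set (R × C), IsDuplex L D :=
  h.spec.2.2.2.2

end Pool.Agent.Results.MP_043404_co.DuplexTowers
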